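import Mathlib
import Pool.Agent.H67.RigidDefs
import Pool.Agent.H67.CoreRigid

/-!
For every `d ≥ 2` and every `c > 0` the probability that the `(d+1)`-core of `G(n, c/n)` is a giant
globally `d`-rigid component is bounded away from `1`.

Reason: with probability bounded below, the core contains a triangle all of whose vertices have
degree exactly `d + 1` in the core (and in the graph); such a triangle carries only `3d` bars for
`3d` degrees of freedom, and every generic framework has a second realisation.
-/

namespace Pool.Agent.Results.MP_ea0129_co.CoreNotGloballyRigid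

open Pool.Agent.H67.RigidDefs

/-- For all `d ≥ 2`, `c > 0` and `ε > 0` there is `δ > 0` such that for all large `n`, the
probability that the vertex set of the `(d+1)`-core of `G(n, c/n)` has at least `ε n` elements and
is a globally `d`-rigid component of `G` is at most `1 - δ`. -/
theorem result (d : ℕ) (hd : 2 ≤ d) (c : ℝ) (hc : 0 < c) (ε : ℝ) (hε : 0 < ε) :
    ∃ δ : ℝ, 0 < δ ∧ ∀ᶠ n : ℕ in Filter.atTop,
      Prob n (c / n) (fun G : SimpleGraph (Fin n) =>
        ε * n ≤ (coreSet (d + 1) G).ncard ∧
          IsGloballyRigidComponent d G (coreSet (d + 1) G)) ≤ 1 - δ := by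
  obtain ⟨s, rfl⟩ : ∃ s, d = s + 2 := ⟨d - 2, by omega⟩
  obtain ⟨δ, hδ, h⟩ := Pool.Agent.H67.CoreRigid.main s c hc ε hε
  refine ⟨δ, hδ, ?_⟩
  have hlarge : ∀ᶠ n : ℕ in Filter.atTop, c ≤ n :=
    (tendsto_natCast_atTop_atTop (R := ℝ)).eventually_ge_atTop c
  filter_upwards [h, hlarge] with n hn hcn
  refine le_trans ?_ hn
  have hnpos : (0 : ℝ) < n := by linarith
  have h0 : 0 ≤ c / (n : ℝ) := by positivity
  have h1 : c / (n : ℝ) ≤ 1 := by rw [div_le_one hnpos]; exact hcn
  apply Pool.Agent.H67.RandGraph.prob_mono h0 h1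
  rintro G ⟨hG1, hG2⟩
  exact ⟨hG1, hG2.prop⟩

end Pool.Agent.Results.MP_ea0129_co.CoreNotGloballyRigid
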